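import Pool.Agent.V1117.QuatHam

/-!
# Extending `HA`-neutral invariant subspaces for quaternion Hamiltonian matrices (Q2)
-/

set_option autoImplicit false

namespace Pool.Agent.Results.MP_377342_al.ExtendCSet

open Quaternion MulOpposite Matrix Pool.Agent.V1117.QuatForm Pool.Agent.V1117.QuatHam

/-- **Theorem** (Q2). If `S` is a c-set containing all eigenvalues of `A|N` with nonzero real part,
then the two subspaces can be chosen so that the eigenvalues with nonzero real part of the
restrictions of `A` are exactly the elements of `S`. -/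
theorem result (n : ℕ) (H A : Matrix (Fin n) (Fin n) ℍ[ℝ]) (N : Subsp n) (h : Data H A N)
    (S : Set ℍ[ℝ]) (hS : IsC A S) (hNS : eigs A N ⊆ S) :
    (∃ L : Subsp n, N ≤ L ∧ IsInv A L ∧ IsMax (IsNonneg (H * A)) L ∧ eigs A L = S) ∧
    (∃ L : Subsp n, N ≤ L ∧ IsInv A L ∧ IsMax (IsNonpos (H * A)) L ∧ eigs A L = S) := by
  have hG := herm h.skew h.ham
  constructor
  · obtain ⟨L, h1, h2, h3, h4⟩ := extend_cset (form_isHerm hG) (toLin A)
      (fun x y => skew h.ham x y) (fun x hx => rad h.unit hG hx) h.inv h.neutral hS hNS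
    exact ⟨L, h1, h2, max_nonneg hG h3, h4⟩
  · obtain ⟨L, h1, h2, h3, h4⟩ := extend_cset (form_isHerm hG).neg (toLin A)
      (fun x y => congrArg Neg.neg (skew h.ham x y))
      (fun x hx => rad h.unit hG fun y => neg_eq_zero.mp (hx y)) h.inv (neutral_neg h.neutral)
      hS hNS
    exact ⟨L, h1, h2, max_nonpos hG h3, h4⟩

end Pool.Agent.Results.MP_377342_al.ExtendCSet
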