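import Pool.Agent.V1117.QuatHam

/-!
# Extending `HA`-neutral invariant subspaces for quaternion Hamiltonian matrices (Q1)

The form `x^* HA y` is hermitian and `A` is skew-adjoint for it.  Let `M ⊇ N` be a maximal invariant
neutral subspace.  Between `M` and `M^⊥` all relative eigenvectors are nonisotropic and one can
split them off one at a time.
-/

set_option autoImplicit false

namespace Pool.Agent.Results.MP_377342_al.ExtendNeutral

open Quaternion MulOpposite Matrix Pool.Agent.V1117.QuatForm Pool.Agent.V1117.QuatHam

/-- **Theorem** (Q1). Every `A`-invariant `HA`-neutral subspace is contained in an `A`-invariant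
maximal `HA`-nonnegative subspace and in an `A`-invariant maximal `HA`-nonpositive one. -/
theorem result (n : ℕ) (H A : Matrix (Fin n) (Fin n) ℍ[ℝ]) (N : Subsp n) (h : Data H A N) :
    (∃ L : Subsp n, N ≤ L ∧ IsInv A L ∧ IsMax (IsNonneg (H * A)) L) ∧
    (∃ L : Subsp n, N ≤ L ∧ IsInv A L ∧ IsMax (IsNonpos (H * A)) L) := by
  have hG := herm h.skew h.ham
  constructor
  · obtain ⟨L, h1, h2, h3⟩ := extend_neutral (form_isHerm hG) (toLin A)
      (fun x y => skew h.ham x y) h.inv h.neutral
    exact ⟨L, h1, h2, max_nonneg hG h3⟩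
  · obtain ⟨L, h1, h2, h3⟩ := extend_neutral (form_isHerm hG).neg (toLin A)
      (fun x y => congrArg Neg.neg (skew h.ham x y)) h.inv (neutral_neg h.neutral)
    exact ⟨L, h1, h2, max_nonpos hG h3⟩

end Pool.Agent.Results.MP_377342_al.ExtendNeutral
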